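import Pool.Agent.H32.AmA

set_option autoImplicit false

open Pool.Agent.H32.Am in
theorem Pool.Agent.Results.MP_222fdd_al.Hall.result (G : Type) [Group G] [Finite G] :
    ((Irr G).Finite ∧ ∀ u : G → ℂ, IsClassFun u → u = ∑ᶠ χ ∈ Irr G, coef u χ • χ) ∧
    ∀ (N : Subgroup G) [N.Normal],
      (Nat.Coprime (Nat.card N) N.index ∨ ∃ H : Subgroup G, N.IsComplement' H) →
      AMZA (G ⧸ N) ≤ AMZA G :=
  ⟨⟨irr_fin, fun u hu => by
    rw [finsum_mem_eq_finite_toFinset_sum _ irr_fin]; exact expand u hu⟩, fun N _ h => main N h⟩
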